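import Mathlib

/-!
The union-of-traces question for uniform set families: strong failure, already for spread families.
-/

set_option autoImplicit false

namespace Pool.Agent.Results.MP_0fb6b1_co.SpreadFailure

open Finset

/-- The triples `(S, S₁, S₂)` of members of `F` for which some member `T` of `F` satisfies
`T ∩ S = (S₁ ∩ S) ∪ (S₂ ∩ S)`. -/
def goodTriples (F : Finset (Finset ℕ)) : Finset (Finset ℕ × Finset ℕ × Finset ℕ) :=
  (F ×ˢ F ×ˢ F).filter
    (fun p => ∃ T ∈ F, T ∩ p.1 = (p.2.1 ∩ p.1) ∪ (p.2.2 ∩ p.1))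

/-- The subfamily of the members of `F` that contain `Z`. -/
def link (F : Finset (Finset ℕ)) (Z : Finset ℕ) : Finset (Finset ℕ) :=
  F.filter (fun A => Z ⊆ A)

/-- `F` is `K`-spread: for every finite set `Z`, at most a `K ^ (-|Z|)` fraction of the members
of `F` contain `Z`. -/
def IsSpread (K : ℝ) (F : Finset (Finset ℕ)) : Prop :=
  ∀ Z : Finset ℕ, K ^ Z.card * ((link F Z).card : ℝ) ≤ (F.card : ℝ)

/-- The disjoint union of two sets of natural numbers, placed in the natural numbers. -/
def J (A B : Finset ℕ) : Finset ℕ := (A.disjSum B).map Equiv.natSumNatEquivNat.toEmbedding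

lemma J_card (A B : Finset ℕ) : (J A B).card = A.card + B.card := by
  simp [J]

lemma J_inter (A B A' B' : Finset ℕ) : J A B ∩ J A' B' = J (A ∩ A') (B ∩ B') := by
  unfold J
  rw [← Finset.map_inter]
  congr 1
  ext x
  rcases x with x | x <;> simp

lemma J_union (A B A' B' : Finset ℕ) : J A B ∪ J A' B' = J (A ∪ A') (B ∪ B') := by
  unfold J
  rw [← Finset.map_union]
  congr 1
  ext x
  rcases x with x | x <;> simp

lemma J_subset (A B A' B' : Finset ℕ) : J A B ⊆ J A' B' ↔ A ⊆ A' ∧ B ⊆ B' := by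
  unfold J
  rw [Finset.map_subset_map]
  constructor
  · intro h
    constructor
    · intro x hx
      have : Sum.inl x ∈ A'.disjSum B' := h (by simpa using hx)
      simpa using this
    · intro x hx
      have : Sum.inr x ∈ A'.disjSum B' := h (by simpa using hx)
      simpa using this
  · rintro ⟨h1, h2⟩ x hx
    rcases x with x | x
    · simp only [Finset.inl_mem_disjSum] at hx ⊢
      exact h1 hx
    · simp only [Finset.inr_mem_disjSum] at hx ⊢
      exact h2 hx

lemma J_inj (A B A' B' : Finset ℕ) (h : J A B = J A' B') : A = A' ∧ B = B' := by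
  have h1 := (J_subset A B A' B').1 (le_of_eq h)
  have h2 := (J_subset A' B' A B).1 (le_of_eq h.symm)
  exact ⟨Finset.Subset.antisymm h1.1 h2.1, Finset.Subset.antisymm h1.2 h2.2⟩

lemma exists_J (Z : Finset ℕ) : ∃ A B, J A B = Z := by
  refine ⟨(Z.map Equiv.natSumNatEquivNat.symm.toEmbedding).toLeft,
    (Z.map Equiv.natSumNatEquivNat.symm.toEmbedding).toRight, ?_⟩
  unfold J
  rw [Finset.toLeft_disjSum_toRight, Finset.map_map]
  have h : (Equiv.natSumNatEquivNat.symm.toEmbedding.trans
      Equiv.natSumNatEquivNat.toEmbedding) = Function.Embedding.refl ℕ := by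
    ext x
    change Equiv.natSumNatEquivNat (Equiv.natSumNatEquivNat.symm x) = x
    exact Equiv.apply_symm_apply _ x
  rw [h, Finset.map_refl]

/-- The product of two families. -/
def prod (F G : Finset (Finset ℕ)) : Finset (Finset ℕ) :=
  (F ×ˢ G).image (fun p => J p.1 p.2)

lemma prod_card (F G : Finset (Finset ℕ)) : (prod F G).card = F.card * G.card := by
  unfold prod
  rw [Finset.card_image_of_injective, Finset.card_product]
  rintro ⟨a, b⟩ ⟨c, d⟩ h
  obtain ⟨h1, h2⟩ := J_inj _ _ _ _ h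
  simp at h1 h2
  simp [h1, h2]

lemma mem_prod (F G : Finset (Finset ℕ)) (A B : Finset ℕ) :
    J A B ∈ prod F G ↔ A ∈ F ∧ B ∈ G := by
  unfold prod
  rw [Finset.mem_image]
  constructor
  · rintro ⟨⟨a, b⟩, hab, h⟩
    obtain ⟨h1, h2⟩ := J_inj _ _ _ _ h
    simp at h1 h2
    subst h1 h2
    simpa using hab
  · rintro ⟨hA, hB⟩
    exact ⟨(A, B), by simp [hA, hB], rfl⟩

lemma exists_of_mem_prod (F G : Finset (Finset ℕ)) (S : Finset ℕ) (h : S ∈ prod F G) :
    ∃ A ∈ F, ∃ B ∈ G, S = J A B := by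
  unfold prod at h
  rw [Finset.mem_image] at h
  obtain ⟨⟨a, b⟩, hab, h⟩ := h
  rw [Finset.mem_product] at hab
  exact ⟨a, hab.1, b, hab.2, h.symm⟩

lemma link_prod (F G : Finset (Finset ℕ)) (A B : Finset ℕ) :
    link (prod F G) (J A B) = prod (link F A) (link G B) := by
  ext S
  obtain ⟨C, D, rfl⟩ := exists_J S
  rw [mem_prod]
  unfold link
  rw [Finset.mem_filter, Finset.mem_filter, Finset.mem_filter, mem_prod, J_subset]
  tauto

lemma spread_prod (K : ℝ) (hK : 0 ≤ K) (F G : Finset (Finset ℕ)) (hF : IsSpread K F)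
    (hG : IsSpread K G) : IsSpread K (prod F G) := by
  intro Z
  obtain ⟨A, B, rfl⟩ := exists_J Z
  rw [link_prod, prod_card, prod_card, J_card, pow_add]
  push_cast
  calc K ^ A.card * K ^ B.card * (((link F A).card : ℝ) * ((link G B).card : ℝ))
      = (K ^ A.card * ((link F A).card : ℝ)) * (K ^ B.card * ((link G B).card : ℝ)) := by ring
    _ ≤ (F.card : ℝ) * (G.card : ℝ) := by
        apply mul_le_mul (hF A) (hG B)
        · positivity
        · positivity

lemma good_prod (F G : Finset (Finset ℕ)) :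
    (goodTriples (prod F G)).card ≤ (goodTriples F).card * (goodTriples G).card := by
  rw [← Finset.card_product]
  have hsub : goodTriples (prod F G) ⊆ ((goodTriples F) ×ˢ (goodTriples G)).image
      (fun q => (J q.1.1 q.2.1, J q.1.2.1 q.2.2.1, J q.1.2.2 q.2.2.2)) := by
    rintro ⟨S, S₁, S₂⟩ h
    unfold goodTriples at h
    rw [Finset.mem_filter, Finset.mem_product, Finset.mem_product] at h
    obtain ⟨⟨h1, h2, h3⟩, T, hT, hTS⟩ := h
    obtain ⟨A, hA, B, hB, e⟩ := exists_of_mem_prod _ _ _ h1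
    obtain ⟨A₁, hA₁, B₁, hB₁, e₁⟩ := exists_of_mem_prod _ _ _ h2
    obtain ⟨A₂, hA₂, B₂, hB₂, e₂⟩ := exists_of_mem_prod _ _ _ h3
    obtain ⟨A₃, hA₃, B₃, hB₃, e₃⟩ := exists_of_mem_prod _ _ _ hT
    simp only at e e₁ e₂ e₃ hTS
    subst e e₁ e₂ e₃
    rw [J_inter, J_inter, J_inter, J_union] at hTS
    obtain ⟨k1, k2⟩ := J_inj _ _ _ _ hTS
    rw [Finset.mem_image]
    refine ⟨((A, A₁, A₂), (B, B₁, B₂)), ?_, rfl⟩
    rw [Finset.mem_product]
    unfold goodTriples
    constructor
    · rw [Finset.mem_filter, Finset.mem_product, Finset.mem_product]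
      exact ⟨⟨hA, hA₁, hA₂⟩, A₃, hA₃, k1⟩
    · rw [Finset.mem_filter, Finset.mem_product, Finset.mem_product]
      exact ⟨⟨hB, hB₁, hB₂⟩, B₃, hB₃, k2⟩
  exact le_trans (Finset.card_le_card hsub) Finset.card_image_le

/-- Members of the block: three special sets and pairwise disjoint triples. -/
def blk (j : ℕ) : Finset ℕ :=
  if j = 0 then {0, 1, 2} else if j = 1 then {0, 3, 4} else if j = 2 then {1, 5, 6}
  else {3 * j, 3 * j + 1, 3 * j + 2}

lemma blk_card (j : ℕ) : (blk j).card = 3 := by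
  unfold blk
  split_ifs
  · rfl
  · rfl
  · rfl
  · rw [Finset.card_insert_of_notMem, Finset.card_insert_of_notMem, Finset.card_singleton]
    · simp
    · simp

/-- The block with `M` members. -/
def block (M : ℕ) : Finset (Finset ℕ) := (Finset.range M).image blk

lemma mem_blk (j x : ℕ) : x ∈ blk j ↔
    (j = 0 ∧ x < 3) ∨ (j = 1 ∧ (x = 0 ∨ x = 3 ∨ x = 4)) ∨ (j = 2 ∧ (x = 1 ∨ x = 5 ∨ x = 6)) ∨
    (3 ≤ j ∧ 3 * j ≤ x ∧ x ≤ 3 * j + 2) := by
  unfold blk
  split_ifs with h h h
  · simp only [Finset.mem_insert, Finset.mem_singleton]; omega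
  · simp only [Finset.mem_insert, Finset.mem_singleton]; omega
  · simp only [Finset.mem_insert, Finset.mem_singleton]; omega
  · simp only [Finset.mem_insert, Finset.mem_singleton]; omega

lemma blk_inj (i j : ℕ) (h : blk i = blk j) : i = j := by
  have h1 : ∀ x, x ∈ blk i ↔ x ∈ blk j := by
    intro x; rw [h]
  simp only [mem_blk] at h1
  have a0 := h1 0
  have a1 := h1 1
  have a2 := h1 2
  have a3 := h1 (3 * i)
  have a4 := h1 (3 * j)
  omega

lemma block_card (M : ℕ) : (block M).card = M := by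
  unfold block
  rw [Finset.card_image_of_injective, Finset.card_range]
  intro i j h
  exact blk_inj i j h

/-- Every point lies in at most two members of the block. -/
lemma link_one (M x : ℕ) : (link (block M) {x}).card ≤ 2 := by
  have : link (block M) {x} ⊆ ((if x = 0 then {0, 1} else if x = 1 then {0, 2} else
      if x = 2 then {0, 0} else if x = 3 ∨ x = 4 then {1, 1} else if x = 5 ∨ x = 6 then {2, 2}
      else {x / 3, x / 3} : Finset ℕ)).image blk := by
    intro S hS
    unfold link block at hS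
    rw [Finset.mem_filter, Finset.mem_image] at hS
    obtain ⟨⟨j, hj, rfl⟩, h⟩ := hS
    rw [Finset.singleton_subset_iff, mem_blk] at h
    refine Finset.mem_image.2 ⟨j, ?_, rfl⟩
    split_ifs <;> simp only [Finset.mem_insert, Finset.mem_singleton] <;> omega
  refine le_trans (Finset.card_le_card this) (le_trans Finset.card_image_le ?_)
  split_ifs <;> exact Finset.card_le_two

/-- Two different points lie together in at most one member of the block. -/
lemma link_two (M : ℕ) (Z : Finset ℕ) (hZ : 2 ≤ Z.card) : (link (block M) Z).card ≤ 1 := by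
  obtain ⟨x, hx, y, hy, hxy⟩ := Finset.one_lt_card.1 (show 1 < Z.card by omega)
  rw [Finset.card_le_one]
  intro S hS T hT
  unfold link block at hS hT
  rw [Finset.mem_filter, Finset.mem_image] at hS hT
  obtain ⟨⟨i, _, rfl⟩, hi⟩ := hS
  obtain ⟨⟨j, _, rfl⟩, hj⟩ := hT
  have h1 := (mem_blk _ _).1 (hi hx)
  have h2 := (mem_blk _ _).1 (hi hy)
  have h3 := (mem_blk _ _).1 (hj hx)
  have h4 := (mem_blk _ _).1 (hj hy)
  have : i = j := by omega
  rw [this]

lemma link_card_le (F : Finset (Finset ℕ)) (Z : Finset ℕ) : (link F Z).card ≤ F.card :=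
  Finset.card_le_card (Finset.filter_subset _ _)

lemma link_big (M : ℕ) (Z : Finset ℕ) (hZ : 3 < Z.card) : (link (block M) Z).card = 0 := by
  rw [Finset.card_eq_zero]
  unfold link block
  rw [Finset.filter_eq_empty_iff]
  intro S hS
  rw [Finset.mem_image] at hS
  obtain ⟨j, _, rfl⟩ := hS
  intro h
  have := Finset.card_le_card h
  rw [blk_card] at this
  omega

lemma block_spread (K : ℝ) (hK : 1 ≤ K) (M : ℕ) (hM : 2 * K ^ 3 ≤ (M : ℝ)) :
    IsSpread K (block M) := by
  intro Z
  rw [block_card]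
  have hK3 : (1 : ℝ) ≤ K ^ 3 := one_le_pow₀ hK
  rcases Nat.lt_or_ge 3 Z.card with h | h
  · rw [link_big M Z h]
    simp
  rcases Nat.lt_or_ge Z.card 2 with h1 | h1
  · rcases Nat.eq_zero_or_pos Z.card with h0 | h0
    · rw [h0]
      have := link_card_le (block M) Z
      rw [block_card] at this
      have : ((link (block M) Z).card : ℝ) ≤ M := by exact_mod_cast this
      simpa using this
    · have hZ1 : Z.card = 1 := by omega
      obtain ⟨x, rfl⟩ := Finset.card_eq_one.1 hZ1
      have h2 : ((link (block M) {x}).card : ℝ) ≤ 2 := by exact_mod_cast link_one M x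
      have hKK : K ≤ K ^ 3 := by
        calc K = K ^ 1 := (pow_one K).symm
          _ ≤ K ^ 3 := pow_le_pow_right₀ hK (by norm_num)
      rw [hZ1, pow_one]
      nlinarith
  · have h2 : ((link (block M) Z).card : ℝ) ≤ 1 := by exact_mod_cast link_two M Z h1
    have hKK : K ^ Z.card ≤ K ^ 3 := pow_le_pow_right₀ hK h
    have h0 : 0 ≤ K ^ Z.card := by positivity
    nlinarith

lemma block_good (M : ℕ) (hM : 3 ≤ M) : (goodTriples (block M)).card + 2 ≤ M ^ 3 := by
  have hnot : ∀ T ∈ block M, ¬ T ∩ blk 0 = {0, 1} := by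
    intro T hT h
    unfold block at hT
    rw [Finset.mem_image] at hT
    obtain ⟨j, hj, rfl⟩ := hT
    have hx : ∀ x, x ∈ blk j ∩ blk 0 ↔ x ∈ ({0, 1} : Finset ℕ) := by
      intro x; rw [h]
    have a0 : (0 : ℕ) ∈ blk j := (Finset.mem_inter.1 ((hx 0).2 (by simp))).1
    have a1 : (1 : ℕ) ∈ blk j := (Finset.mem_inter.1 ((hx 1).2 (by simp))).1
    have a2 : (2 : ℕ) ∉ blk j := by
      intro h2
      have h3 : (2 : ℕ) ∈ blk j ∩ blk 0 := Finset.mem_inter.2 ⟨h2, by decide⟩
      have h4 := (hx 2).1 h3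
      simp at h4
    rw [mem_blk] at a0 a1 a2
    omega
  have e1 : (blk 1 ∩ blk 0) ∪ (blk 2 ∩ blk 0) = {0, 1} := by decide
  have e2 : (blk 2 ∩ blk 0) ∪ (blk 1 ∩ blk 0) = {0, 1} := by decide
  have hm : ∀ i, i < 3 → blk i ∈ block M := by
    intro i hi
    exact Finset.mem_image.2 ⟨i, Finset.mem_range.2 (by omega), rfl⟩
  have hsub : ({(blk 0, blk 1, blk 2), (blk 0, blk 2, blk 1)} :
      Finset (Finset ℕ × Finset ℕ × Finset ℕ)) ⊆
      (block M ×ˢ block M ×ˢ block M).filter
        (fun p => ¬ ∃ T ∈ block M, T ∩ p.1 = (p.2.1 ∩ p.1) ∪ (p.2.2 ∩ p.1)) := by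
    intro p hp
    rw [Finset.mem_insert, Finset.mem_singleton] at hp
    rw [Finset.mem_filter, Finset.mem_product, Finset.mem_product]
    rcases hp with rfl | rfl
    · refine ⟨⟨hm 0 (by norm_num), hm 1 (by norm_num), hm 2 (by norm_num)⟩, ?_⟩
      rintro ⟨T, hT, h⟩
      simp only at h
      rw [e1] at h
      exact hnot T hT h
    · refine ⟨⟨hm 0 (by norm_num), hm 2 (by norm_num), hm 1 (by norm_num)⟩, ?_⟩
      rintro ⟨T, hT, h⟩
      simp only at h
      rw [e2] at h
      exact hnot T hT h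
  have h2 := Finset.card_le_card hsub
  have h3 : ({(blk 0, blk 1, blk 2), (blk 0, blk 2, blk 1)} :
      Finset (Finset ℕ × Finset ℕ × Finset ℕ)).card = 2 := by decide
  rw [h3] at h2
  have h4 := Finset.card_filter_add_card_filter_not (s := block M ×ˢ block M ×ˢ block M)
    (fun p : Finset ℕ × Finset ℕ × Finset ℕ =>
      ∃ T ∈ block M, T ∩ p.1 = (p.2.1 ∩ p.1) ∪ (p.2.2 ∩ p.1))
  rw [Finset.card_product, Finset.card_product, block_card] at h4
  have h5 : M * (M * M) = M ^ 3 := by ring
  rw [h5] at h4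
  have h6 : (goodTriples (block M)).card +
      ((block M ×ˢ block M ×ˢ block M).filter
        (fun p => ¬ ∃ T ∈ block M, T ∩ p.1 = (p.2.1 ∩ p.1) ∪ (p.2.2 ∩ p.1))).card = M ^ 3 := h4
  linarith

/-- The family of the `M` pairwise disjoint sets `{s * j, ..., s * j + s - 1}`. -/
lemma exists_disjoint (K : ℝ) (hK : 1 ≤ K) (s : ℕ) :
    ∃ F : Finset (Finset ℕ), F.Nonempty ∧ (∀ A ∈ F, A.card = s) ∧ IsSpread K F := by
  rcases Nat.eq_zero_or_pos s with rfl | hs
  · refine ⟨{∅}, by simp, by simp, ?_⟩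
    intro Z
    rcases Finset.eq_empty_or_nonempty Z with rfl | hZ
    · simp [link]
    · have : link {∅} Z = ∅ := by
        unfold link
        rw [Finset.filter_eq_empty_iff]
        intro S hS
        rw [Finset.mem_singleton] at hS
        subst hS
        rw [Finset.subset_empty]
        exact hZ.ne_empty
      rw [this]
      simp
  · set N : ℕ := ⌈K ^ s⌉₊ with hN
    have hKs : (1 : ℝ) ≤ K ^ s := one_le_pow₀ hK
    have hNK : K ^ s ≤ (N : ℝ) := Nat.le_ceil _
    have hN1 : 1 ≤ N := by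
      have : (1 : ℝ) ≤ (N : ℝ) := le_trans hKs hNK
      exact_mod_cast this
    set f : ℕ → Finset ℕ := fun j => Finset.Ico (s * j) (s * j + s) with hf
    have hmem : ∀ j x, x ∈ f j ↔ x / s = j := by
      intro j x
      simp only [hf, Finset.mem_Ico]
      rw [Nat.div_eq_iff hs]
      constructor
      · rintro ⟨h1, h2⟩
        constructor
        · rw [Nat.mul_comm]; exact h1
        · rw [Nat.mul_comm]; omega
      · rintro ⟨h1, h2⟩
        rw [Nat.mul_comm] at h1 h2
        constructor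
        · exact h1
        · omega
    have hcard : ∀ j, (f j).card = s := by
      intro j
      simp [hf]
    have hinj : Function.Injective f := by
      intro i j h
      have h1 : s * i ∈ f i := by
        rw [hmem]; exact Nat.mul_div_cancel_left i hs
      rw [h, hmem] at h1
      rw [← h1]
      exact (Nat.mul_div_cancel_left i hs).symm
    have hFcard : ((Finset.range N).image f).card = N := by
      rw [Finset.card_image_of_injective _ hinj, Finset.card_range]
    refine ⟨(Finset.range N).image f, ?_, ?_, ?_⟩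
    · rw [Finset.image_nonempty]
      exact ⟨0, Finset.mem_range.2 hN1⟩
    · intro A hA
      rw [Finset.mem_image] at hA
      obtain ⟨j, _, rfl⟩ := hA
      exact hcard j
    · intro Z
      rw [hFcard]
      rcases Finset.eq_empty_or_nonempty Z with rfl | hZ
      · have := link_card_le ((Finset.range N).image f) ∅
        rw [hFcard] at this
        have h2 : ((link ((Finset.range N).image f) ∅).card : ℝ) ≤ N := by exact_mod_cast this
        simpa using h2
      · obtain ⟨x, hx⟩ := hZ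
        have h1 : (link ((Finset.range N).image f) Z).card ≤ 1 := by
          rw [Finset.card_le_one]
          intro S hS T hT
          unfold link at hS hT
          rw [Finset.mem_filter, Finset.mem_image] at hS hT
          obtain ⟨⟨i, _, rfl⟩, hi⟩ := hS
          obtain ⟨⟨j, _, rfl⟩, hj⟩ := hT
          have h1 := (hmem _ _).1 (hi hx)
          have h2 := (hmem _ _).1 (hj hx)
          rw [← h1, ← h2]
        rcases Nat.lt_or_ge s Z.card with h | h
        · have h0 : (link ((Finset.range N).image f) Z).card = 0 := by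
            rw [Finset.card_eq_zero]
            unfold link
            rw [Finset.filter_eq_empty_iff]
            intro S hS
            rw [Finset.mem_image] at hS
            obtain ⟨j, _, rfl⟩ := hS
            intro hsub
            have := Finset.card_le_card hsub
            rw [hcard] at this
            omega
          rw [h0]
          simp
        · have h2 : ((link ((Finset.range N).image f) Z).card : ℝ) ≤ 1 := by exact_mod_cast h1
          have hKK : K ^ Z.card ≤ K ^ s := pow_le_pow_right₀ hK h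
          have h0 : 0 ≤ K ^ Z.card := by positivity
          nlinarith

lemma good_le (F : Finset (Finset ℕ)) : (goodTriples F).card ≤ F.card ^ 3 := by
  unfold goodTriples
  refine le_trans (Finset.card_filter_le _ _) ?_
  rw [Finset.card_product, Finset.card_product]
  apply le_of_eq
  ring

lemma main (K : ℝ) (hK : 1 ≤ K) (M : ℕ) (hM : 2 * K ^ 3 ≤ (M : ℝ)) (hM3 : 3 ≤ M) (s r : ℕ) :
    ∃ F : Finset (Finset ℕ), F.Nonempty ∧ (∀ A ∈ F, A.card = 3 * r + s) ∧ IsSpread K F ∧
      ((goodTriples F).card : ℝ) ≤ (1 - 2 / (M : ℝ) ^ 3) ^ r * (F.card : ℝ) ^ 3 := by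
  induction r with
  | zero =>
    obtain ⟨F, h1, h2, h3⟩ := exists_disjoint K hK s
    refine ⟨F, h1, ?_, h3, ?_⟩
    · simpa using h2
    · have := good_le F
      rw [pow_zero, one_mul]
      exact_mod_cast this
  | succ r ih =>
    obtain ⟨F, h1, h2, h3, h4⟩ := ih
    refine ⟨prod F (block M), ?_, ?_, ?_, ?_⟩
    · rw [← Finset.card_pos, prod_card, block_card]
      have := Finset.card_pos.2 h1
      positivity
    · intro A hA
      obtain ⟨B, hB, C, hC, rfl⟩ := exists_of_mem_prod _ _ _ hA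
      rw [J_card, h2 B hB]
      unfold block at hC
      rw [Finset.mem_image] at hC
      obtain ⟨j, _, rfl⟩ := hC
      rw [blk_card]
      ring
    · exact spread_prod K (by linarith) F _ h3 (block_spread K hK M hM)
    · have h5 : ((goodTriples (prod F (block M))).card : ℝ) ≤
          ((goodTriples F).card : ℝ) * ((goodTriples (block M)).card : ℝ) := by
        exact_mod_cast good_prod F (block M)
      have h6 : ((goodTriples (block M)).card : ℝ) + 2 ≤ (M : ℝ) ^ 3 := by
        exact_mod_cast block_good M hM3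
      have hMpos : (0 : ℝ) < (M : ℝ) ^ 3 := by
        have : (0 : ℝ) < (M : ℝ) := by
          have : 0 < M := by omega
          exact_mod_cast this
        positivity
      have h7 : ((goodTriples (block M)).card : ℝ) ≤ (1 - 2 / (M : ℝ) ^ 3) * (M : ℝ) ^ 3 := by
        have : (1 - 2 / (M : ℝ) ^ 3) * (M : ℝ) ^ 3 = (M : ℝ) ^ 3 - 2 := by
          field_simp
        rw [this]
        linarith
      rw [prod_card, block_card]
      push_cast
      calc ((goodTriples (prod F (block M))).card : ℝ)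
          ≤ ((goodTriples F).card : ℝ) * ((goodTriples (block M)).card : ℝ) := h5
        _ ≤ ((1 - 2 / (M : ℝ) ^ 3) ^ r * (F.card : ℝ) ^ 3) *
              ((1 - 2 / (M : ℝ) ^ 3) * (M : ℝ) ^ 3) := by
            apply mul_le_mul h4 h7 (by positivity)
            exact le_trans (by positivity) h4
        _ = (1 - 2 / (M : ℝ) ^ 3) ^ (r + 1) * ((F.card : ℝ) * (M : ℝ)) ^ 3 := by ring

/-- For every real `K ≥ 1` and every `w` there is a `w`-set system `F` which is `K`-spread (so it
has at least `K ^ w` members) and for which the probability that random members `S, S₁, S₂` of `F`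
admit a member `T` of `F` with `T ∩ S = (S₁ ∩ S) ∪ (S₂ ∩ S)` is at most
`exp (-⌊w / 3⌋ / (4 (K³ + 1)³))`. -/
theorem result (K : ℝ) (hK : 1 ≤ K) (w : ℕ) :
    ∃ F : Finset (Finset ℕ), F.Nonempty ∧ (∀ A ∈ F, A.card = w) ∧ K ^ w ≤ (F.card : ℝ) ∧
      IsSpread K F ∧
      ((goodTriples F).card : ℝ) / (F.card : ℝ) ^ 3 ≤
        Real.exp (-((w / 3 : ℕ) : ℝ) / (4 * (K ^ 3 + 1) ^ 3)) := by
  have hK3 : (1 : ℝ) ≤ K ^ 3 := one_le_pow₀ hK
  set M : ℕ := ⌈2 * K ^ 3⌉₊ + 1 with hM
  have h1 : 2 * K ^ 3 ≤ (M : ℝ) := by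
    have := Nat.le_ceil (2 * K ^ 3)
    rw [hM]
    push_cast
    linarith
  have h2 : (M : ℝ) ≤ 2 * (K ^ 3 + 1) := by
    have := Nat.ceil_lt_add_one (show (0 : ℝ) ≤ 2 * K ^ 3 by positivity)
    rw [hM]
    push_cast
    linarith
  have h3 : 3 ≤ M := by
    have h : (2 : ℝ) ≤ ((⌈2 * K ^ 3⌉₊ : ℕ) : ℝ) := by
      have := Nat.le_ceil (2 * K ^ 3)
      linarith
    have : 2 ≤ ⌈2 * K ^ 3⌉₊ := by exact_mod_cast h
    omega
  obtain ⟨F, hne, hcard, hspread, hgood⟩ := main K hK M h1 h3 (w % 3) (w / 3)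
  have hw : 3 * (w / 3) + w % 3 = w := Nat.div_add_mod w 3
  rw [hw] at hcard
  have hFpos : (0 : ℝ) < (F.card : ℝ) := by exact_mod_cast Finset.card_pos.2 hne
  refine ⟨F, hne, hcard, ?_, hspread, ?_⟩
  · obtain ⟨A, hA⟩ := hne
    have h := hspread A
    rw [hcard A hA] at h
    have h4 : 1 ≤ (link F A).card := by
      rw [Nat.one_le_iff_ne_zero, ← Nat.pos_iff_ne_zero, Finset.card_pos]
      exact ⟨A, Finset.mem_filter.2 ⟨hA, Finset.Subset.refl _⟩⟩
    have h5 : (1 : ℝ) ≤ ((link F A).card : ℝ) := by exact_mod_cast h4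
    have h6 : 0 ≤ K ^ w := by positivity
    nlinarith
  · rw [div_le_iff₀ (by positivity)]
    refine le_trans hgood ?_
    apply mul_le_mul_of_nonneg_right _ (by positivity)
    have hMpos : (0 : ℝ) < (M : ℝ) := by
      have : 0 < M := by omega
      exact_mod_cast this
    have hM3 : (3 : ℝ) ≤ (M : ℝ) := by exact_mod_cast h3
    have h27 : (27 : ℝ) ≤ (M : ℝ) ^ 3 := by
      calc (27 : ℝ) = 3 ^ 3 := by norm_num
        _ ≤ (M : ℝ) ^ 3 := pow_le_pow_left₀ (by norm_num) hM3 3
    have hle : (M : ℝ) ^ 3 ≤ (2 * (K ^ 3 + 1)) ^ 3 := pow_le_pow_left₀ hMpos.le h2 3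
    have hpos4 : (0 : ℝ) < 4 * (K ^ 3 + 1) ^ 3 := by positivity
    have h8 : 1 / (4 * (K ^ 3 + 1) ^ 3) ≤ 2 / (M : ℝ) ^ 3 := by
      rw [div_le_div_iff₀ hpos4 (by positivity)]
      nlinarith
    have h9 : 1 - 2 / (M : ℝ) ^ 3 ≤ Real.exp (-(1 / (4 * (K ^ 3 + 1) ^ 3))) := by
      have := Real.add_one_le_exp (-(1 / (4 * (K ^ 3 + 1) ^ 3)))
      linarith
    have h10 : 0 ≤ 1 - 2 / (M : ℝ) ^ 3 := by
      rw [sub_nonneg, div_le_one (by positivity)]
      linarith
    calc (1 - 2 / (M : ℝ) ^ 3) ^ (w / 3) ≤ (Real.exp (-(1 / (4 * (K ^ 3 + 1) ^ 3)))) ^ (w / 3) :=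
          pow_le_pow_left₀ h10 h9 _
      _ = Real.exp (-((w / 3 : ℕ) : ℝ) / (4 * (K ^ 3 + 1) ^ 3)) := by
          rw [← Real.exp_nat_mul]
          congr 1
          ring

end Pool.Agent.Results.MP_0fb6b1_co.SpreadFailure
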